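import Pool.Agent.H79.Ga1

/-! Automorphisms of order `p` of the polynomial ring that are not exponential. -/

open Pool.Agent.H79.Ga

theorem Pool.Agent.Results.MP_038775_ag.NotExp.result
    (k : Type) [Field k] (p : ℕ) [Fact p.Prime] [CharP k p] (n : ℕ) (hn : 3 ≤ n) :
    ∃ φ : MvPolynomial (Fin n) k ≃ₐ[k] MvPolynomial (Fin n) k,
      orderOf φ = p ∧ ¬ IsExponential φ := by
  obtain ⟨m, rfl⟩ : ∃ m, n = m + 3 := ⟨n - 3, by omega⟩
  exact ⟨phi k p m, order_phi k p m, not_exp k p m⟩
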